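import Pool.Agent.Y758.MM.Stm2

set_option autoImplicit false

open Set Filter Topology Metric

namespace Pool.Agent.Y758.MM

namespace NZ

section tools

variable {V : Type} [NormedAddCommGroup V] [NormedSpace ℂ V]

/-- the identity theorem on convex open sets -/
lemma line {U : Set V} (hU : IsOpen U) (hc : Convex ℝ U) {F : V → ℂ}
    (hF : ∀ z ∈ U, DifferentiableAt ℂ F z) {w : V} (hw : w ∈ U) (h0 : ∀ᶠ z in 𝓝 w, F z = 0)
    {z : V} (hz : z ∈ U) : F z = 0 := by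
  let L : ℂ → V := fun a => w + a • (z - w)
  have hL : Continuous L := by fun_prop
  have hLd : Differentiable ℂ L := by
    intro a
    exact (differentiableAt_const w).add (differentiableAt_id.smul_const (z - w))
  have hO : IsOpen (L ⁻¹' U) := hU.preimage hL
  have hconv : Convex ℝ (L ⁻¹' U) := by
    intro a ha b hb s t hs ht hst
    show L (s • a + t • b) ∈ U
    have e : L (s • a + t • b) = s • L a + t • L b := by
      simp only [L]
      have e1 : (s : ℝ) • w + (t : ℝ) • w = w := by rw [← add_smul, hst, one_smul]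
      have e2 : (s • a + t • b : ℂ) • (z - w) = s • (a • (z - w)) + t • (b • (z - w)) := by
        rw [add_smul, smul_assoc, smul_assoc]
      rw [e2, smul_add, smul_add]
      nth_rewrite 1 [← e1]
      abel
    rw [e]
    exact hc ha hb hs ht hst
  have h0' : (0 : ℂ) ∈ L ⁻¹' U := by simpa [L] using hw
  have h1' : (1 : ℂ) ∈ L ⁻¹' U := by simpa [L] using hz
  have hA : AnalyticOnNhd ℂ (fun a => F (L a)) (L ⁻¹' U) := by
    have hd : DifferentiableOn ℂ (fun a => F (L a)) (L ⁻¹' U) := by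
      intro a ha
      exact ((hF (L a) ha).comp a (hLd a)).differentiableWithinAt
    exact hd.analyticOnNhd hO
  have hev : (fun a => F (L a)) =ᶠ[𝓝 0] 0 := by
    have ht : Tendsto L (𝓝 0) (𝓝 w) := by
      have := hL.tendsto 0
      simpa [L] using this
    exact ht.eventually h0
  have := hA.eqOn_zero_of_preconnected_of_eventuallyEq_zero hconv.isPreconnected h0' hev h1'
  simpa [L] using this

/-- the coefficients -/
noncomputable def co (f : ℂ × V → ℂ) (n : ℕ) (q : V) : ℂ :=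
  iteratedDeriv n (fun x => f (x, q)) 0 / (n.factorial : ℂ)

/-- the leading coefficient -/
lemma lim [FiniteDimensional ℂ V] (hEXP : S_EXP) {f : ℂ × V → ℂ} {r : V} (hf : Hol f (0, r))
    {S : Set V} {m : ℕ} (hm : ∀ n < m, ∀ᶠ q in 𝓝[S] r, co f n q = 0) :
    ∃ δ : ℝ, 0 < δ ∧ ∃ M : ℝ, DifferentiableOn ℂ (co f m) (ball r δ) ∧
      ∀ q ∈ S ∩ ball r δ, ∀ x : ℂ, ‖x‖ < δ →
        ‖f (x, q) - co f m q * x ^ m‖ ≤ M * ‖x‖ ^ (m + 1) := by
  obtain ⟨δ₀, hδ₀, hd, hs⟩ := hEXP V f r hf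
  -- vanishing of the lower coefficients
  have hlow : ∀ᶠ q in 𝓝[S] r, ∀ n < m, co f n q = 0 := by
    have : ∀ᶠ q in 𝓝[S] r, ∀ n ∈ Finset.range m, co f n q = 0 := by
      rw [Filter.eventually_all_finset]
      intro n hn
      exact hm n (Finset.mem_range.mp hn)
    filter_upwards [this] with q hq n hn using hq n (Finset.mem_range.mpr hn)
  rw [eventually_nhdsWithin_iff, Metric.eventually_nhds_iff_ball] at hlow
  obtain ⟨δ₁, hδ₁, hlow⟩ := hlow
  obtain ⟨η, hη, hη0, hη1⟩ : ∃ η : ℝ, 0 < η ∧ η < δ₀ ∧ η < δ₁ :=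
    ⟨min δ₀ δ₁ / 2, by positivity, by linarith [min_le_left δ₀ δ₁, lt_min hδ₀ hδ₁],
      by linarith [min_le_right δ₀ δ₁, lt_min hδ₀ hδ₁]⟩
  have hprop : ProperSpace V := FiniteDimensional.proper ℂ V
  -- a bound
  have hcomp : IsCompact (closedBall (0 : ℂ) η ×ˢ closedBall r η) :=
    (isCompact_closedBall _ _).prod (isCompact_closedBall _ _)
  have hcont : ContinuousOn f (closedBall (0 : ℂ) η ×ˢ closedBall r η) := by
    intro y hy
    have h1 := (hs y.2 (closedBall_subset_ball hη0 hy.2) y.1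
      (closedBall_subset_ball hη0 hy.1)).1
    exact h1.continuousAt.continuousWithinAt
  obtain ⟨M₀, hM₀⟩ := hcomp.exists_bound_of_continuousOn hcont
  have hM₀0 : 0 ≤ M₀ := (norm_nonneg _).trans (hM₀ (0, r)
    ⟨mem_closedBall_self hη.le, mem_closedBall_self hη.le⟩)
  have hcauchy : ∀ q ∈ closedBall r η, ∀ n, ‖co f n q‖ ≤ M₀ / η ^ n := by
    intro q hq n
    have hdc : DiffContOnCl ℂ (fun x => f (x, q)) (ball 0 η) := by
      apply DifferentiableOn.diffContOnCl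
      intro x hx
      have hx' : x ∈ closedBall (0 : ℂ) η := closure_ball_subset_closedBall hx
      have h1 := (hs q (closedBall_subset_ball hη0 hq) x (closedBall_subset_ball hη0 hx')).1
      exact (h1.comp x (differentiableAt_id.prodMk
        (differentiableAt_const q))).differentiableWithinAt
    have h1 := Complex.norm_iteratedDeriv_le_of_forall_mem_sphere_norm_le n hη hdc
      (fun x hx => hM₀ (x, q) ⟨sphere_subset_closedBall hx, hq⟩)
    unfold co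
    rw [norm_div, Complex.norm_natCast, div_le_iff₀ (by positivity)]
    calc _ ≤ _ := h1
      _ = M₀ / η ^ n * n.factorial := by ring
  refine ⟨η / 2, by positivity, 2 * M₀ / η ^ (m + 1), ?_, ?_⟩
  · exact (hd m).mono (ball_subset_ball (by linarith))
  · intro q hq x hx
    have hqη : q ∈ closedBall r η := ball_subset_closedBall
      (ball_subset_ball (by linarith) hq.2)
    have hsum := (hs q (ball_subset_ball (by linarith) hq.2) x (by
      rw [mem_ball_zero_iff]; linarith)).2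
    have hl : ∀ n < m, co f n q = 0 := hlow q (ball_subset_ball (by linarith) hq.2) hq.1
    have h2 := (hasSum_nat_add_iff' (m + 1)).mpr hsum
    have h3 : ∑ i ∈ Finset.range (m + 1),
        iteratedDeriv i (fun x => f (x, q)) 0 / (i.factorial : ℂ) * x ^ i = co f m q * x ^ m := by
      rw [Finset.sum_range_succ, Finset.sum_eq_zero, zero_add]
      · rfl
      · intro i hi
        have := hl i (Finset.mem_range.mp hi)
        unfold co at this
        rw [this, zero_mul]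
    rw [h3] at h2
    have h4 : HasSum (fun n : ℕ => M₀ / η ^ (m + 1) * ‖x‖ ^ (m + 1) * (1 / 2 : ℝ) ^ n)
        (M₀ / η ^ (m + 1) * ‖x‖ ^ (m + 1) * 2) := hasSum_geometric_two.mul_left _
    refine (h2.norm_le_of_bounded h4 ?_).trans (le_of_eq (by ring))
    intro n
    rw [norm_mul, norm_pow]
    have h5 := hcauchy q hqη (n + (m + 1))
    unfold co at h5
    have h6 : ‖x‖ ^ n ≤ (η / 2) ^ n := pow_le_pow_left₀ (norm_nonneg _) hx.le n
    calc _ ≤ M₀ / η ^ (n + (m + 1)) * ‖x‖ ^ (n + (m + 1)) := by gcongr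
      _ = M₀ / (η ^ n * η ^ (m + 1)) * (‖x‖ ^ n * ‖x‖ ^ (m + 1)) := by
        rw [pow_add η n (m + 1), pow_add ‖x‖ n (m + 1)]
      _ ≤ M₀ / (η ^ n * η ^ (m + 1)) * ((η / 2) ^ n * ‖x‖ ^ (m + 1)) := by gcongr
      _ = M₀ / η ^ (m + 1) * ‖x‖ ^ (m + 1) * (1 / 2 : ℝ) ^ n := by
        rw [div_pow, div_pow, one_pow]
        field_simp

/-- comparison of the leading coefficients -/
lemma compare [FiniteDimensional ℂ V] (hEXP : S_EXP) {f₁ f₂ u : ℂ × V → ℂ} {y₁ y₂ : V}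
    (hf₁ : Hol f₁ (0, y₁)) (hf₂ : Hol f₂ (0, y₂)) (hu : Hol u (0, y₂)) {S : Set V} {m : ℕ}
    (hm₁ : ∀ n < m, ∀ᶠ q in 𝓝[S] y₁, co f₁ n q = 0) (hm₂ : ∀ n < m, ∀ᶠ q in 𝓝[S] y₂, co f₂ n q = 0)
    (lam : V → ℂ) (κ : ℂ × V → V) (hκ : ∀ᶠ p in 𝓝 ((0 : ℂ), y₂), ContinuousAt κ p)
    (hκ0 : κ (0, y₂) = y₁) (hκS : ∀ᶠ p in 𝓝 (0 : ℂ) ×ˢ 𝓝[S] y₂, κ p ∈ S)
    (h : ∀ᶠ p in 𝓝 (0 : ℂ) ×ˢ 𝓝[S] y₂, f₁ (p.1 * lam p.2, κ p) = u p * f₂ p) :
    ∀ᶠ q in 𝓝[S] y₂, co f₁ m (κ (0, q)) * lam q ^ m = u (0, q) * co f₂ m q := by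
  obtain ⟨δ₁, hδ₁, M₁, hd₁, hb₁⟩ := lim hEXP hf₁ hm₁
  obtain ⟨δ₂, hδ₂, M₂, hd₂, hb₂⟩ := lim hEXP hf₂ hm₂
  -- a good neighbourhood
  have hle : 𝓝 (0 : ℂ) ×ˢ 𝓝[S] y₂ ≤ 𝓝 ((0 : ℂ), y₂) := by
    rw [nhds_prod_eq]
    exact Filter.prod_mono le_rfl nhdsWithin_le_nhds
  have hκc : ContinuousAt κ (0, y₂) := hκ.self_of_nhds
  have hκb : ∀ᶠ p in 𝓝 ((0 : ℂ), y₂), κ p ∈ ball y₁ δ₁ := by
    apply hκc
    rw [hκ0]
    exact ball_mem_nhds _ hδ₁
  have huc : ∀ᶠ p in 𝓝 ((0 : ℂ), y₂), ContinuousAt u p := hu.mono fun p hp => hp.continuousAt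
  have hswap : ∀ {P : ℂ × V → Prop}, (∀ᶠ p in 𝓝 (0 : ℂ) ×ˢ 𝓝[S] y₂, P p) →
      ∀ᶠ q in 𝓝[S] y₂, ∀ᶠ x in 𝓝 (0 : ℂ), P (x, q) := by
    intro P hP
    have h1 : ∀ᶠ p in 𝓝[S] y₂ ×ˢ 𝓝 (0 : ℂ), P (p.2, p.1) := by
      rw [Filter.prod_comm, Filter.eventually_map] at hP
      exact hP
    exact h1.curry
  filter_upwards [hswap h, hswap hκS, hswap (hκ.filter_mono hle), hswap (hκb.filter_mono hle),
    hswap (huc.filter_mono hle), nhdsWithin_le_nhds (ball_mem_nhds y₂ hδ₂), self_mem_nhdsWithin]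
    with q h1 h2 h3 h4 h5 h6 h7
  -- one variable
  have e3 : ContinuousAt κ (0, q) := h3.self_of_nhds
  have e4 : κ (0, q) ∈ ball y₁ δ₁ := h4.self_of_nhds
  have e5 : ContinuousAt u (0, q) := h5.self_of_nhds
  have ex : Tendsto (fun x : ℂ => (x, q)) (𝓝[≠] 0) (𝓝 ((0 : ℂ), q)) := by
    have : Continuous (fun x : ℂ => (x, q)) := by fun_prop
    exact (this.tendsto 0).mono_left nhdsWithin_le_nhds
  have t1 : Tendsto (fun x : ℂ => u (x, q)) (𝓝[≠] 0) (𝓝 (u (0, q))) := e5.tendsto.comp ex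
  have t2 : Tendsto (fun x : ℂ => co f₁ m (κ (x, q))) (𝓝[≠] 0) (𝓝 (co f₁ m (κ (0, q)))) := by
    have hc : ContinuousAt (co f₁ m) (κ (0, q)) :=
      (hd₁.differentiableAt (isOpen_ball.mem_nhds e4)).continuousAt
    exact hc.tendsto.comp (e3.tendsto.comp ex)
  have t0 : Tendsto (fun x : ℂ => ‖x‖) (𝓝[≠] (0 : ℂ)) (𝓝 0) := by
    have : Tendsto (fun x : ℂ => ‖x‖) (𝓝 0) (𝓝 ‖(0 : ℂ)‖) := continuous_norm.tendsto 0
    rw [norm_zero] at this
    exact this.mono_left nhdsWithin_le_nhds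
  have hne : ∀ᶠ x : ℂ in 𝓝[≠] 0, x ≠ 0 := self_mem_nhdsWithin
  have hsm : ∀ δ : ℝ, 0 < δ → ∀ᶠ x : ℂ in 𝓝[≠] 0, ‖x‖ < δ := fun δ hδ =>
    t0.eventually (gt_mem_nhds hδ)
  have l2 : Tendsto (fun x : ℂ => f₂ (x, q) / x ^ m) (𝓝[≠] 0) (𝓝 (co f₂ m q)) := by
    rw [tendsto_iff_norm_sub_tendsto_zero]
    have hz : Tendsto (fun x : ℂ => M₂ * ‖x‖) (𝓝[≠] (0 : ℂ)) (𝓝 0) := by
      have := t0.const_mul M₂
      rwa [mul_zero] at this
    refine squeeze_zero' (Eventually.of_forall fun _ => norm_nonneg _) ?_ hz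
    filter_upwards [hne, hsm δ₂ hδ₂] with x hx hx2
    have hb := hb₂ q ⟨h7, h6⟩ x hx2
    have hxm : x ^ m ≠ 0 := pow_ne_zero _ hx
    have e : f₂ (x, q) / x ^ m - co f₂ m q = (f₂ (x, q) - co f₂ m q * x ^ m) / x ^ m := by
      field_simp
    rw [e, norm_div, norm_pow, div_le_iff₀ (pow_pos (norm_pos_iff.mpr hx) m)]
    refine hb.trans (le_of_eq ?_)
    rw [pow_succ]
    ring
  have l1 : Tendsto (fun x : ℂ => f₁ (x * lam q, κ (x, q)) / x ^ m) (𝓝[≠] 0)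
      (𝓝 (co f₁ m (κ (0, q)) * lam q ^ m)) := by
    have hdiff : Tendsto (fun x : ℂ => f₁ (x * lam q, κ (x, q)) / x ^ m -
        co f₁ m (κ (x, q)) * lam q ^ m) (𝓝[≠] 0) (𝓝 0) := by
      rw [tendsto_zero_iff_norm_tendsto_zero]
      have hz : Tendsto (fun x : ℂ => M₁ * ‖lam q‖ ^ (m + 1) * ‖x‖) (𝓝[≠] (0 : ℂ)) (𝓝 0) := by
        have := t0.const_mul (M₁ * ‖lam q‖ ^ (m + 1))
        rwa [mul_zero] at this
      refine squeeze_zero' (Eventually.of_forall fun _ => norm_nonneg _) ?_ hz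
      have hlx : ∀ᶠ x : ℂ in 𝓝[≠] 0, ‖x * lam q‖ < δ₁ := by
        have hc : Tendsto (fun x : ℂ => ‖x * lam q‖) (𝓝[≠] 0) (𝓝 0) := by
          have : Continuous (fun x : ℂ => ‖x * lam q‖) := by fun_prop
          have h9 := this.tendsto 0
          simp only [zero_mul, norm_zero] at h9
          exact h9.mono_left nhdsWithin_le_nhds
        exact hc.eventually (gt_mem_nhds hδ₁)
      filter_upwards [hne, hlx, nhdsWithin_le_nhds h4, nhdsWithin_le_nhds h2] with x hx hx2 hx3 hx4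
      have hb := hb₁ (κ (x, q)) ⟨hx4, hx3⟩ (x * lam q) hx2
      have hxm : x ^ m ≠ 0 := pow_ne_zero _ hx
      have e : f₁ (x * lam q, κ (x, q)) / x ^ m - co f₁ m (κ (x, q)) * lam q ^ m =
          (f₁ (x * lam q, κ (x, q)) - co f₁ m (κ (x, q)) * (x * lam q) ^ m) / x ^ m := by
        rw [mul_pow]
        field_simp
      rw [e, norm_div, norm_pow, div_le_iff₀ (pow_pos (norm_pos_iff.mpr hx) m)]
      refine hb.trans (le_of_eq ?_)
      rw [norm_mul, mul_pow, pow_succ ‖x‖]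
      ring
    have h9 := hdiff.add (t2.mul_const (lam q ^ m))
    rw [zero_add] at h9
    refine h9.congr fun x => ?_
    ring
  have l3 : Tendsto (fun x : ℂ => f₁ (x * lam q, κ (x, q)) / x ^ m) (𝓝[≠] 0)
      (𝓝 (u (0, q) * co f₂ m q)) := by
    refine (t1.mul l2).congr' ?_
    filter_upwards [nhdsWithin_le_nhds h1] with x hx
    have hx' : f₁ (x * lam q, κ (x, q)) = u (x, q) * f₂ (x, q) := hx
    rw [hx', mul_div_assoc]
  exact tendsto_nhds_unique l1 l3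

end tools

end NZ

end Pool.Agent.Y758.MM
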