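import Pool.Agent.Z864.MM.NZMa

set_option autoImplicit false

open Set Filter Topology Metric

namespace Pool.Agent.Y758.MM

namespace NZ

/-- a parametrisation of the surface by a convex set -/
lemma uni (hPARAM : S_PARAM) {r : T3} (hr : r ∈ X3) {W : Set T3} (hW : IsOpen W) (hrW : r ∈ W) :
    ∃ (B : Set (ℂ × ℂ)) (Ψ : ℂ × ℂ → T3) (z₀ : ℂ × ℂ), IsOpen B ∧ Convex ℝ B ∧ z₀ ∈ B ∧ Ψ z₀ = r ∧
      (∀ z ∈ B, DifferentiableAt ℂ Ψ z ∧ Ψ z ∈ X3 ∧ Ψ z ∈ W) ∧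
      ∀ᶠ q in 𝓝[X3] r, ∃ z ∈ B, Ψ z = q := by
  have hk : ((r.1, r.2.1) : ℂ × ℂ) ∈ KK := hr
  obtain ⟨η, hη, ψ, hψd, hψ0, hψK, hev⟩ := hPARAM (r.1, r.2.1) hk
  obtain ⟨Ψ, hΨ⟩ : ∃ Ψ : ℂ × ℂ → T3, Ψ = fun z => ((ψ z.1).1, (ψ z.1).2, z.2) := ⟨_, rfl⟩
  obtain ⟨z₀, hz₀⟩ : ∃ z₀ : ℂ × ℂ, z₀ = (0, r.2.2) := ⟨_, rfl⟩
  have hΨd : ∀ z : ℂ × ℂ, z.1 ∈ ball (0 : ℂ) η → DifferentiableAt ℂ Ψ z := by
    intro z hz
    have h1 : DifferentiableAt ℂ (fun z : ℂ × ℂ => ψ z.1) z :=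
      (hψd.differentiableAt (isOpen_ball.mem_nhds hz)).comp z differentiableAt_fst
    rw [hΨ]
    exact h1.fst.prodMk (h1.snd.prodMk differentiableAt_snd)
  have hΨz₀ : Ψ z₀ = r := by
    rw [hΨ, hz₀]
    simp only [hψ0]
  have hc0 : ContinuousAt Ψ z₀ := (hΨd z₀ (by rw [hz₀]; exact mem_ball_self hη)).continuousAt
  have hWn : ∀ᶠ z in 𝓝 z₀, Ψ z ∈ W := hc0 (by rw [hΨz₀]; exact hW.mem_nhds hrW)
  obtain ⟨ε, hε, hεW⟩ := Metric.eventually_nhds_iff_ball.mp hWn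
  obtain ⟨δ, hδ, hδη, hδε⟩ : ∃ δ : ℝ, 0 < δ ∧ δ ≤ η ∧ δ ≤ ε :=
    ⟨min η ε, lt_min hη hε, min_le_left _ _, min_le_right _ _⟩
  have hB1 : ∀ z ∈ ball z₀ δ, z.1 ∈ ball (0 : ℂ) η := by
    intro z hz
    rw [mem_ball] at hz ⊢
    have h1 : dist z.1 z₀.1 ≤ dist z z₀ := by
      rw [Prod.dist_eq]
      exact le_max_left _ _
    have h2 : z₀.1 = 0 := by rw [hz₀]
    rw [h2] at h1
    linarith
  refine ⟨ball z₀ δ, Ψ, z₀, isOpen_ball, convex_ball _ _, mem_ball_self hδ, hΨz₀, ?_, ?_⟩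
  · intro z hz
    refine ⟨hΨd z (hB1 z hz), ?_, hεW z (ball_subset_ball hδε hz)⟩
    have h1 := (hψK z.1 (hB1 z hz)).1
    rw [hΨ]
    exact h1
  · have ht : Tendsto (fun q : T3 => ((q.1, q.2.1) : ℂ × ℂ)) (𝓝[X3] r) (𝓝[KK] (r.1, r.2.1)) := by
      rw [tendsto_nhdsWithin_iff]
      constructor
      · have : Continuous (fun q : T3 => ((q.1, q.2.1) : ℂ × ℂ)) := by fun_prop
        exact (this.tendsto r).mono_left nhdsWithin_le_nhds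
      · filter_upwards [self_mem_nhdsWithin] with q hq using hq
    have h1 := ht.eventually hev
    have h2 : Tendsto (fun q : T3 => kc (r.1, r.2.1) (q.1, q.2.1)) (𝓝[X3] r) (𝓝 0) := by
      unfold kc
      by_cases h : r.2.1 = 0
      · simp only [h, if_true]
        have : Continuous (fun q : T3 => q.2.1) := by fun_prop
        have h3 := (this.tendsto r).mono_left (nhdsWithin_le_nhds (s := X3))
        rwa [h] at h3
      · simp only [h, if_false]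
        have : Continuous (fun q : T3 => q.1 - r.1) := by fun_prop
        have h3 := (this.tendsto r).mono_left (nhdsWithin_le_nhds (s := X3))
        rwa [sub_self] at h3
    have h3 : Tendsto (fun q : T3 => q.2.2) (𝓝[X3] r) (𝓝 r.2.2) := by
      have : Continuous (fun q : T3 => q.2.2) := by fun_prop
      exact (this.tendsto r).mono_left nhdsWithin_le_nhds
    filter_upwards [h1, h2.eventually (ball_mem_nhds _ hδ), h3.eventually (ball_mem_nhds _ hδ)]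
      with q e1 e2 e3
    refine ⟨(kc (r.1, r.2.1) (q.1, q.2.1), q.2.2), ?_, ?_⟩
    · rw [mem_ball, Prod.dist_eq, hz₀]
      exact max_lt e2 e3
    · rw [hΨ]
      simp only [e1.2]

lemma van {B : Set (ℂ × ℂ)} {Ψ : ℂ × ℂ → T3} (hB : IsOpen B) (hBc : Convex ℝ B)
    (hΨ : ∀ z ∈ B, DifferentiableAt ℂ Ψ z ∧ Ψ z ∈ X3) {f : T3 → ℂ}
    (hf : ∀ z ∈ B, DifferentiableAt ℂ f (Ψ z)) {w : ℂ × ℂ} (hw : w ∈ B)
    (h : ∀ᶠ q in 𝓝[X3] (Ψ w), f q = 0) : ∀ z ∈ B, f (Ψ z) = 0 := by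
  intro z hz
  refine line hB hBc (F := fun z => f (Ψ z)) (fun y hy => (hf y hy).comp y (hΨ y hy).1) hw ?_ hz
  have ht : Tendsto Ψ (𝓝 w) (𝓝[X3] (Ψ w)) := by
    rw [tendsto_nhdsWithin_iff]
    refine ⟨(hΨ w hw).1.continuousAt, ?_⟩
    filter_upwards [hB.mem_nhds hw] with y hy using (hΨ y hy).2
  exact ht.eventually h

/-- the identity theorem on the surface -/
lemma ident (hPARAM : S_PARAM) {r : T3} (hr : r ∈ X3) {f : T3 → ℂ} (hf : Hol f r) :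
    ∀ᶠ q in 𝓝[X3] r, (∀ᶠ q' in 𝓝[X3] q, f q' = 0) → ∀ᶠ q' in 𝓝[X3] r, f q' = 0 := by
  obtain ⟨W, hWd, hW, hrW⟩ := _root_.eventually_nhds_iff.mp hf
  obtain ⟨B, Ψ, z₀, hB, hBc, -, -, hΨ, hcov⟩ := uni hPARAM hr hW hrW
  filter_upwards [hcov] with q hq hv
  obtain ⟨w, hw, rfl⟩ := hq
  have h1 := van hB hBc (fun z hz => ⟨(hΨ z hz).1, (hΨ z hz).2.1⟩)
    (fun z hz => hWd _ (hΨ z hz).2.2) hw hv
  filter_upwards [hcov] with q' hq'
  obtain ⟨z, hz, rfl⟩ := hq'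
  exact h1 z hz

lemma XX_nhds (x : ℂ) (r : T3) : 𝓝[XX] ((x, r) : T) = 𝓝 x ×ˢ 𝓝[X3] r := by
  have : XX = (univ : Set ℂ) ×ˢ X3 := by
    ext p
    simp [XX, X3]
  rw [this, nhdsWithin_prod_eq, nhdsWithin_univ]

/-- if all coefficients vanish, the function vanishes -/
lemma van_all (hEXP : S_EXP) (hPARAM : S_PARAM) {r : T3} (hr : r ∈ X3) {f : T → ℂ}
    (hf : Hol f (0, r)) (h : ∀ n, ∀ᶠ q in 𝓝[X3] r, co f n q = 0) :
    ∀ᶠ p in 𝓝[XX] ((0, r) : T), f p = 0 := by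
  obtain ⟨δ, hδ, hd, hs⟩ := hEXP T3 f r hf
  obtain ⟨B, Ψ, z₀, hB, hBc, hz₀, hΨ0, hΨ, hcov⟩ := uni hPARAM hr isOpen_ball (mem_ball_self hδ)
  have hv : ∀ n, ∀ z ∈ B, co f n (Ψ z) = 0 := by
    intro n
    refine van hB hBc (fun z hz => ⟨(hΨ z hz).1, (hΨ z hz).2.1⟩) ?_ hz₀ (by rw [hΨ0]; exact h n)
    intro z hz
    exact (hd n).differentiableAt (isOpen_ball.mem_nhds (hΨ z hz).2.2)
  rw [XX_nhds]
  have h1 : ∀ᶠ x in 𝓝 (0 : ℂ), x ∈ ball (0 : ℂ) δ := ball_mem_nhds _ hδ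
  filter_upwards [h1.prod_mk hcov] with p hp
  obtain ⟨hx, z, hz, hzq⟩ := hp
  have h2 := (hs p.2 (by rw [← hzq]; exact (hΨ z hz).2.2) p.1 hx).2
  have h3 : (fun n => iteratedDeriv n (fun x => f (x, p.2)) 0 / (n.factorial : ℂ) * p.1 ^ n) =
      fun _ => 0 := by
    funext n
    have := hv n z hz
    rw [hzq] at this
    unfold co at this
    rw [this, zero_mul]
  rw [h3] at h2
  exact (h2.unique hasSum_zero)

lemma Reg3_open {r : T3} (hr : r ∈ Reg3) : ∀ᶠ q in 𝓝[X3] r, q ∈ Reg3 := by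
  have h1 : Continuous fun q : T3 => ‖q.1‖ := by fun_prop
  have h2 : ∀ᶠ q in 𝓝 r, ‖q.1‖ < 2 := (h1.tendsto r).eventually (gt_mem_nhds hr.2)
  filter_upwards [nhdsWithin_le_nhds h2, self_mem_nhdsWithin] with q hq hq2
  exact ⟨hq2, hq⟩

lemma mem_Reg {ρ : ℝ} (hρ : 0 < ρ) {r : T3} (hr : r ∈ Reg3) : ((0, r) : T) ∈ Reg ρ :=
  ⟨hr.1, by simpa using hρ, hr.2⟩

lemma zero_tendsto (r : T3) : Tendsto (fun q : T3 => ((0, q) : T)) (𝓝[X3] r) (𝓝[XX] (0, r)) := by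
  rw [tendsto_nhdsWithin_iff]
  constructor
  · have : Continuous (fun q : T3 => ((0, q) : T)) := by fun_prop
    exact (this.tendsto r).mono_left nhdsWithin_le_nhds
  · filter_upwards [self_mem_nhdsWithin] with q hq using hq

/-- the coefficients of two local equations -/
lemma cf_comp (hEXP : S_EXP) {ρ : ℝ} {Θ : Bool → T → T → ℂ} (hρ : 0 < ρ) (hΘ : CD ρ Θ) {m : ℕ}
    (hlow : Low Θ m) (c : Bool) {r : T3} (hr : r ∈ Reg3) :
    ∀ᶠ q₀ in 𝓝[X3] r, ∀ᶠ q in 𝓝[X3] q₀, (cf Θ m c q₀ q = 0 ↔ cf Θ m c r q = 0) := by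
  have h1 := (zero_tendsto r).eventually (hΘ.comp c (0, r) (mem_Reg hρ hr))
  have h2 : ∀ᶠ q₀ in 𝓝[X3] r, Hol (Θ c (0, r)) (0, q₀) := by
    have h3 := eventually_eventually_nhds.mpr (hΘ.hol c (0, r) (mem_Reg hρ hr))
    exact (zero_tendsto r).eventually (nhdsWithin_le_nhds h3)
  have h4 : ∀ᶠ q₀ in 𝓝[X3] r, ∀ n < m, ∀ᶠ q in 𝓝[X3] q₀, cf Θ n c r q = 0 := by
    have : ∀ᶠ q₀ in 𝓝[X3] r, ∀ n ∈ Finset.range m, ∀ᶠ q in 𝓝[X3] q₀, cf Θ n c r q = 0 := by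
      rw [Filter.eventually_all_finset]
      intro n hn
      exact eventually_eventually_nhdsWithin.mpr (hlow n (Finset.mem_range.mp hn) c r hr)
    filter_upwards [this] with q hq n hn using hq n (Finset.mem_range.mpr hn)
  filter_upwards [h1, h2, h4, Reg3_open hr] with q₀ e1 e2 e4 e5
  obtain ⟨u, hu, hu0, he⟩ := e1
  have hcmp := compare hEXP (f₁ := Θ c (0, q₀)) (f₂ := Θ c (0, r)) (u := u) (y₁ := q₀) (y₂ := q₀)
    (hΘ.hol c (0, q₀) (mem_Reg hρ e5)) e2 hu (S := X3) (m := m)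
    (fun n hn => hlow n hn c q₀ e5) e4 (fun _ => 1) (fun p => p.2)
    (Eventually.of_forall fun p => continuous_snd.continuousAt) rfl
    (by
      have h9 : ∀ᶠ q in 𝓝[X3] q₀, q ∈ X3 := self_mem_nhdsWithin
      exact (Eventually.of_forall fun _ => trivial : ∀ᶠ _ in 𝓝 (0 : ℂ), True).prod_mk h9 |>.mono
        fun p hp => hp.2)
    (by
      rw [XX_nhds] at he
      filter_upwards [he] with p hp
      rw [mul_one]
      exact hp)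
  have huc : ∀ᶠ q in 𝓝[X3] q₀, u (0, q) ≠ 0 := by
    have hc : ContinuousAt u (0, q₀) := hu.self_of_nhds.continuousAt
    have h9 : ∀ᶠ p in 𝓝 ((0, q₀) : T), u p ≠ 0 := hc.eventually_ne hu0
    exact (zero_tendsto q₀).eventually (nhdsWithin_le_nhds h9)
  filter_upwards [hcmp, huc] with q e6 e7
  rw [one_pow, mul_one] at e6
  have e8 : cf Θ m c q₀ q = u (0, q) * cf Θ m c r q := e6
  rw [e8]
  constructor
  · intro h
    exact (mul_eq_zero.mp h).resolve_left e7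
  · intro h
    rw [h, mul_zero]

/-- the `m`-th coefficient vanishes near `r` -/
def Van (Θ : Bool → T → T → ℂ) (m : ℕ) (c : Bool) (r : T3) : Prop :=
  ∀ᶠ q in 𝓝[X3] r, cf Θ m c r q = 0

lemma van_clopen (hEXP : S_EXP) (hPARAM : S_PARAM) {ρ : ℝ} {Θ : Bool → T → T → ℂ} (hρ : 0 < ρ)
    (hΘ : CD ρ Θ) {m : ℕ} (hlow : Low Θ m) (c : Bool) {r : T3} (hr : r ∈ Reg3) :
    ∀ᶠ q in 𝓝[Reg3] r, (Van Θ m c r ↔ Van Θ m c q) := by
  have hol : Hol (cf Θ m c r) r := by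
    obtain ⟨δ, hδ, hd, -⟩ := hEXP T3 (Θ c (0, r)) r (hΘ.hol c (0, r) (mem_Reg hρ hr))
    filter_upwards [ball_mem_nhds r hδ] with q hq
    exact (hd m).differentiableAt (isOpen_ball.mem_nhds hq)
  have h1 := cf_comp hEXP hρ hΘ hlow c hr
  have h2 := ident hPARAM hr.1 hol
  have h3 : 𝓝[Reg3] r ≤ 𝓝[X3] r := nhdsWithin_mono r fun q hq => hq.1
  have h4 : Van Θ m c r → ∀ᶠ q₀ in 𝓝[X3] r, ∀ᶠ q in 𝓝[X3] q₀, cf Θ m c r q = 0 :=
    fun h => eventually_eventually_nhdsWithin.mpr h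
  by_cases hv : Van Θ m c r
  · filter_upwards [h3 h1, h3 (h4 hv)] with q₀ e1 e2
    refine ⟨fun _ => ?_, fun _ => hv⟩
    exact (eventually_congr e1).mpr e2
  · filter_upwards [h3 h1, h3 h2] with q₀ e1 e2
    refine ⟨fun h => absurd h hv, fun h => ?_⟩
    exact e2 ((eventually_congr e1).mp h)

end NZ

end Pool.Agent.Y758.MM
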